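import Pool.Agent.Helper33.DP.Sheet

/-!
Row A of the sheet PL (MP_fcb106_co): the case of two smaller graphs.
-/

set_option autoImplicit false

namespace Pool.Agent.Helper13.PL

open Finset Pool.Agent.Helper33.DP

theorem be0_pos {w : ℕ} (hw : 1 ≤ w) : 0 < be0 w := by
  have : (0 : ℝ) < w := by exact_mod_cast hw
  unfold be0
  positivity

theorem bet_pos {w : ℕ} (hw : 1 ≤ w) (m : ℕ) : 0 < bet w m :=
  mul_pos (be0_pos hw) (by positivity)

theorem bet_le {w : ℕ} (hw : 1 ≤ w) (m : ℕ) : bet w m ≤ 3 * be0 w := by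
  have hw0 : (0 : ℝ) < w := by exact_mod_cast hw
  have h1 : (1 + 1 / (w : ℝ) ^ 2) ^ (w ^ 2 - m) ≤ 3 := by
    have h2 : 1 + 1 / (w : ℝ) ^ 2 ≤ Real.exp (1 / (w : ℝ) ^ 2) := by
      rw [add_comm]; exact Real.add_one_le_exp _
    have h3 : (1 + 1 / (w : ℝ) ^ 2) ^ (w ^ 2 - m) ≤ Real.exp (1 / (w : ℝ) ^ 2) ^ (w ^ 2 - m) :=
      pow_le_pow_left₀ (by positivity) h2 _
    refine h3.trans ?_
    rw [← Real.exp_nat_mul]
    have h4 : ((w ^ 2 - m : ℕ) : ℝ) * (1 / (w : ℝ) ^ 2) ≤ 1 := by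
      have h5 : ((w ^ 2 - m : ℕ) : ℝ) ≤ (w : ℝ) ^ 2 := by
        have : w ^ 2 - m ≤ w ^ 2 := Nat.sub_le _ _
        exact_mod_cast this
      rw [mul_one_div, div_le_one (by positivity)]
      exact h5
    calc Real.exp (((w ^ 2 - m : ℕ) : ℝ) * (1 / (w : ℝ) ^ 2)) ≤ Real.exp 1 :=
          Real.exp_le_exp.2 h4
      _ ≤ 3 := by linarith [Real.exp_one_lt_d9]
  unfold bet
  rw [mul_comm]
  exact mul_le_mul_of_nonneg_right h1 (be0_pos hw).le

theorem bet_succ {w m m' : ℕ} (hw : 1 ≤ w) (hm : m ≤ w ^ 2) (h : m' < m) :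
    bet w m * (1 + 1 / (w : ℝ) ^ 2) ≤ bet w m' := by
  have hw0 : (0 : ℝ) < w := by exact_mod_cast hw
  unfold bet
  rw [mul_assoc, ← pow_succ]
  refine mul_le_mul_of_nonneg_left ?_ (be0_pos hw).le
  refine pow_le_pow_right₀ ?_ (by omega)
  have : 0 ≤ 1 / (w : ℝ) ^ 2 := by positivity
  linarith

theorem card_le {w : ℕ} (G : Gr w) : G.card ≤ w ^ 2 := by
  have h := Finset.card_le_univ G
  rw [Fintype.card_prod, Fintype.card_fin] at h
  rw [sq]; exact h

/-- the numbers of case A -/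
theorem num {w m m' : ℕ} (hw : 1 ≤ w) (hm : m ≤ w ^ 2) (h : m' < m) {β β' : ℝ}
    (hβ : β = bet w m / (1 - yy w)) (hβ' : β' = β / (1 - yy w)) :
    0 < β ∧ β < β' ∧ (w : ℝ) * β' < 1 ∧ β' / (1 - w * β') ≤ bet w m' := by
  have hw1 : (1 : ℝ) ≤ w := by exact_mod_cast hw
  have hw0 : (0 : ℝ) < w := by linarith
  set x : ℝ := 1 / (w : ℝ) ^ 2 with hx
  have hx0 : 0 < x := by positivity
  have hx1 : x ≤ 1 := by
    rw [hx, div_le_one (by positivity)]
    nlinarith
  have hyy : yy w = x / 8 := by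
    unfold yy
    rw [hx]
    field_simp
  have hb := bet_pos hw m
  have h1y : 0 < 1 - yy w := by rw [hyy]; linarith
  have hβ0 : 0 < β := by rw [hβ]; positivity
  have hβ'0 : 0 < β' := by rw [hβ']; positivity
  have hlt : β < β' := by
    rw [hβ', lt_div_iff₀ h1y]
    have : 0 < yy w := by rw [hyy]; positivity
    nlinarith
  have e1 : β' = bet w m / ((1 - x / 8) * (1 - x / 8)) := by
    rw [hβ', hβ, hyy, div_div]
  -- `w β'` is small
  have h2 : (w : ℝ) * β' ≤ x / 2048 := by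
    have h3 : β' ≤ 4 * be0 w := by
      rw [e1, div_le_iff₀ (by nlinarith)]
      have h4 := bet_le hw m
      have h5 := be0_pos hw
      have h6 : (3 / 4 : ℝ) ≤ (1 - x / 8) * (1 - x / 8) := by nlinarith
      nlinarith
    have h4 : (w : ℝ) * (4 * be0 w) ≤ x / 2048 := by
      unfold be0
      rw [hx]
      have h5 : (w : ℝ) * (4 * (1 / (8192 * (w : ℝ) ^ 11))) = 1 / (2048 * (w : ℝ) ^ 10) := by
        field_simp
        norm_num
      rw [h5, div_div]
      refine one_div_le_one_div_of_le (by positivity) ?_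
      have h6 : (w : ℝ) ^ 2 ≤ (w : ℝ) ^ 10 := pow_le_pow_right₀ hw1 (by norm_num)
      nlinarith
    exact (mul_le_mul_of_nonneg_left h3 hw0.le).trans h4
  have h3 : (w : ℝ) * β' < 1 := by linarith
  refine ⟨hβ0, hlt, h3, ?_⟩
  refine le_trans ?_ (bet_succ hw hm h)
  rw [div_le_iff₀ (by linarith), e1, div_le_iff₀ (by nlinarith), ← hx]
  rw [e1] at h2 h3
  set y : ℝ := (w : ℝ) * (bet w m / ((1 - x / 8) * (1 - x / 8))) with hy
  have hy0 : 0 ≤ y := by
    rw [← e1] at hy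
    rw [hy]; positivity
  have h7 : 1 ≤ (1 + x) * (1 - y) * ((1 - x / 8) * (1 - x / 8)) := by
    have h8 : 1 - x / 4 ≤ (1 - x / 8) * (1 - x / 8) := by nlinarith
    have h9 : 1 - x / 2048 ≤ 1 - y := by linarith
    have h10 : (1 + x) * (1 - x / 2048) * (1 - x / 4) ≤
        (1 + x) * (1 - y) * ((1 - x / 8) * (1 - x / 8)) := by
      refine mul_le_mul ?_ h8 (by linarith) (by
        refine mul_nonneg (by linarith) (by linarith))
      exact mul_le_mul_of_nonneg_left h9 (by linarith)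
    refine le_trans ?_ h10
    nlinarith [mul_nonneg hx0.le (sub_nonneg.2 hx1), mul_nonneg (mul_nonneg hx0.le hx0.le)
      (sub_nonneg.2 hx1)]
  nlinarith

/-- a good state from a potential bound: no error -/
theorem good_of_bdd {w : ℕ} {G : Gr w} {μ : Fin w → Fin w → ℕ} {β : ℝ}
    (h0 : ∀ a b, (a, b) ∉ G → μ a b = 0) (h : Bdd G (fun a b => (μ a b : ℝ)) β)
    (hβ : β ≤ bet w G.card) : GoodS G μ := by
  refine ⟨h0, fun a b => (μ a b : ℝ), fun a b hab => by simp [h0 a b hab],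
    ⟨h.pos, fun σ hσ => (h.le σ hσ).trans hβ⟩, ?_⟩
  intro q v
  simp only [sub_self, mul_zero, zero_mul, Finset.sum_const_zero, abs_zero]
  have h1 : 0 ≤ nrm q := Finset.sum_nonneg fun _ _ => abs_nonneg _
  have h2 : 0 ≤ nrm v := Finset.sum_nonneg fun _ _ => abs_nonneg _
  have h3 : 0 ≤ Phi q := Finset.sum_nonneg fun _ _ => Finset.sum_nonneg fun _ _ => abs_nonneg _
  have h4 : 0 ≤ Phi v := Finset.sum_nonneg fun _ _ => Finset.sum_nonneg fun _ _ => abs_nonneg _
  have h5 : 0 ≤ EE w := by unfold EE; positivity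
  positivity

/-- A: the case of two smaller graphs. -/
theorem A (hT1 : ST_T1) (hR : ST_RND3) (hB : ST_BDR) (hGB : ST_GB) : ST_A := by
  intro w G G₁ G₂ μ hw hG h1 h2 hc hgood hlt1 hlt2
  obtain ⟨hpos, hbdd⟩ := hGB w G μ hw hG hgood
  have n1 := num (β' := bet w G.card / (1 - yy w) / (1 - yy w)) hw (card_le G) hlt1 rfl rfl
  have n2 := num (β' := bet w G.card / (1 - yy w) / (1 - yy w)) hw (card_le G) hlt2 rfl rfl
  set β := bet w G.card / (1 - yy w) with hβ
  set β' := β / (1 - yy w) with hβ'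
  obtain ⟨hβ0, hββ, hwβ, hle1⟩ := n1
  obtain ⟨-, -, -, hle2⟩ := n2
  obtain ⟨z, hz0, hzs, hzsum, hz1, hz2⟩ :=
    hT1 w G G₁ G₂ (fun a b => (μ a b : ℝ)) β β' hw h1 h2 hc hbdd hββ
  obtain ⟨z', hroute, herr, hsum0⟩ := hR w G₁ G₂ μ z hz0 hzs hzsum
  have hw0 : (0 : ℝ) ≤ w := Nat.cast_nonneg w
  refine ⟨z', hroute, ?_, ?_⟩
  · have b1 := hB w G₁ (fun a x => ∑ b, z a x b) (fun a x => ∑ b, (z' a x b : ℝ)) β' w h1 hw0
      (hβ0.trans hββ) hwβ hz1 (fun a x _ => by
        have h3 : ∑ b, z a x b - ∑ b, (z' a x b : ℝ) ≤ w := by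
          rw [← Finset.sum_sub_distrib]
          calc ∑ b, (z a x b - (z' a x b : ℝ)) ≤ ∑ _b : Fin w, (1 : ℝ) := by
                refine Finset.sum_le_sum fun b _ => ?_
                have := abs_le.1 (herr a x b)
                linarith [this.1]
            _ = w := by simp
        linarith)
    refine good_of_bdd (β := β' / (1 - w * β')) (fun a x hax => ?_) ?_ hle1
    · refine Finset.sum_eq_zero fun b _ => ?_
      by_contra hne
      exact hax (hroute.supp a x b hne).1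
    · have e : (fun a x => ((∑ b, z' a x b : ℕ) : ℝ)) = fun a x => ∑ b, (z' a x b : ℝ) := by
        funext a x; push_cast; rfl
      rw [e]; exact b1
  · have b2 := hB w G₂ (fun x b => ∑ a, z a x b) (fun x b => ∑ a, (z' a x b : ℝ)) β' w h2 hw0
      (hβ0.trans hββ) hwβ hz2 (fun x b _ => by
        have h3 : ∑ a, z a x b - ∑ a, (z' a x b : ℝ) ≤ w := by
          rw [← Finset.sum_sub_distrib]
          calc ∑ a, (z a x b - (z' a x b : ℝ)) ≤ ∑ _a : Fin w, (1 : ℝ) := by
                refine Finset.sum_le_sum fun a _ => ?_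
                have := abs_le.1 (herr a x b)
                linarith [this.1]
            _ = w := by simp
        linarith)
    refine good_of_bdd (β := β' / (1 - w * β')) (fun x b hxb => ?_) ?_ hle2
    · refine Finset.sum_eq_zero fun a _ => ?_
      by_contra hne
      exact hxb (hroute.supp a x b hne).2
    · have e : (fun x b => ((∑ a, z' a x b : ℕ) : ℝ)) = fun x b => ∑ a, (z' a x b : ℝ) := by
        funext x b; push_cast; rfl
      rw [e]; exact b2

end Pool.Agent.Helper13.PL
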